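import Pool.Agent.Q39.CT.Prob
import Pool.Agent.Q39.CT.Up
import Pool.Agent.Q39.CT.Lo
import Pool.Agent.Q39.CT.Cheb
import Pool.Agent.Q39.CT.Var
import Pool.Agent.Q39.CT.Pair
import Pool.Agent.Q39.CT.Anc
import Pool.Agent.Q39.CT.Sqrt
import Pool.Agent.Q39.CT.Tail
import Pool.Agent.Q39.CT.H
import Pool.Agent.Q39.CT.QUpper
import Pool.Agent.Q39.CT.QLim
import Pool.Agent.Q39.CT.Sum
import Pool.Agent.Q39.CT.Params
import Pool.Agent.Q39.CT.Ex
import Pool.Agent.Q39.CT.D1
import Pool.Agent.Q39.CT.D2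
import Pool.Agent.Q39.CT.D3
import Pool.Agent.Q39.CT.D4

/-!
# MP_6a6beb_pr: early vertices among the most central vertices (full answer: the limit holds)

`Om n`: the `n!` equally likely attachments of the uniform attachment tree `T_n` on `{0, ..., n}`;
`par ω`: the parent function; `TG n (par ω)`: the tree as a graph; `psi n (par ω) v`: the centrality
of `v` (the number of vertices in the largest component left after deleting `v`);
`IsTop n (par ω) m A`: `A` is a set of `m` most central vertices; `RR n K A`: the fraction of the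
`K` earliest vertices lying in `A`; `phi c = c (1 - exp(-1/c))`; `Bad n K c δ (par ω)`: some set of
`⌈cK⌉` most central vertices has `|RR - phi c| > δ`; `prob c δ K n`: the probability that
`|R_{K,n}(c) - phi c| > δ` when ties are broken uniformly at random.
-/

namespace Pool.Agent.Results.MP_6a6beb_pr.EarlyAmongCentral

open Finset Filter Topology
open Pool.Agent.Q39.CT
open scoped Nat Classical

theorem result :
    (∀ c δ : ℝ, 1 < c → 0 < δ →
      Tendsto (fun K : ℕ => limsup (fun n : ℕ => prob c δ K n) atTop) atTop (𝓝 0)) ∧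
    (∀ c δ ε : ℝ, 1 < c → 0 < δ → 0 < ε → ∃ K₀ : ℕ, ∀ K : ℕ, K₀ ≤ K → ∃ n₀ : ℕ, ∀ n : ℕ, n₀ ≤ n →
      (((Finset.univ : Finset (Om n)).filter (fun ω => Bad n K c δ (par ω))).card : ℝ) ≤
        ε * (n ! : ℝ)) ∧
    (∀ (n m : ℕ) (ω : Om n), m ≤ n + 1 → ∃ A, IsTop n (par ω) m A) := by
  have hVar : TaskVar := taskVar taskSqrt
  have hCheb : TaskCheb := taskCheb hVar
  have hD3 : TaskD3 := taskD3 taskD1 taskD2
  have hD4 : TaskD4 := taskD4 taskD1 taskD2
  have hTail : TaskTail := taskTail taskQUpper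
  have hM : ∀ {c δ ε : ℝ}, 1 < c → 0 < δ → 0 < ε →
      ∀ᶠ K : ℕ in atTop, ∀ᶠ n : ℕ in atTop, Ex n (fun f => ind (Bad n K c δ f)) ≤ ε :=
    fun hc hδ hε => main (taskUp hD3) (taskLo hD4) hCheb hTail taskH taskQLim taskSum taskParams hc hδ hε
  refine ⟨fun c δ hc hδ => limsup_main hM hc hδ, fun c δ ε hc hδ hε => ?_,
    fun n m ω h => taskEx n m (par ω) h⟩
  obtain ⟨K₀, hK₀⟩ := eventually_atTop.1 (hM hc hδ hε)
  refine ⟨K₀, fun K hK => ?_⟩
  obtain ⟨n₀, hn₀⟩ := eventually_atTop.1 (hK₀ K hK)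
  refine ⟨n₀, fun n hn => ?_⟩
  have h := hn₀ n hn
  rw [count_eq, div_le_iff₀ (by positivity)] at h
  exact h

end Pool.Agent.Results.MP_6a6beb_pr.EarlyAmongCentral
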